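import Pool.Agent.H48.FXD.Defs

/-!
# MP_ea41d9_gt: an isometric action preserves the distance (row DMP)
-/

set_option autoImplicit false

open Bundle Manifold Filter Set MeasureTheory
open scoped ContDiff Topology ENNReal
open Pool.Agent.H48.FXD

namespace Pool.Agent.H7.FXD

variable {E : Type*} [NormedAddCommGroup E] [NormedSpace ℝ E] [FiniteDimensional ℝ E]
  {M : Type*} [MetricSpace M] [ChartedSpace E M] [IsManifold 𝓘(ℝ, E) ∞ M]
  [RiemannianBundle (fun x : M => TangentSpace 𝓘(ℝ, E) x)]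
  [IsContMDiffRiemannianBundle 𝓘(ℝ, E) ∞ E (fun x : M => TangentSpace 𝓘(ℝ, E) x)]
  [IsRiemannianManifold 𝓘(ℝ, E) M]

omit [FiniteDimensional ℝ E]
  [IsContMDiffRiemannianBundle 𝓘(ℝ, E) ∞ E (fun x : M => TangentSpace 𝓘(ℝ, E) x)]
  [IsRiemannianManifold 𝓘(ℝ, E) M] in
private lemma enorm_map {G : Type*} [Group G] [TopologicalSpace G] [MulAction G M]
    (hact : IsometricAction E M G) (g : G) (x : M) (v : TangentSpace 𝓘(ℝ, E) x) :
    ‖mfderiv 𝓘(ℝ, E) 𝓘(ℝ, E) (fun y : M => g • y) x v‖ₑ = ‖v‖ₑ := by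
  have h := hact.inner_map g x v v
  have h2 : ‖mfderiv 𝓘(ℝ, E) 𝓘(ℝ, E) (fun y : M => g • y) x v‖ = ‖v‖ := by
    rw [real_inner_self_eq_norm_sq, real_inner_self_eq_norm_sq] at h
    exact (sq_eq_sq₀ (norm_nonneg _) (norm_nonneg _)).1 h
  rw [← ofReal_norm, ← ofReal_norm, h2]

omit [FiniteDimensional ℝ E]
  [IsContMDiffRiemannianBundle 𝓘(ℝ, E) ∞ E (fun x : M => TangentSpace 𝓘(ℝ, E) x)]
  [IsRiemannianManifold 𝓘(ℝ, E) M] in
private lemma edist_le {G : Type*} [Group G] [TopologicalSpace G] [MulAction G M]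
    (hact : IsometricAction E M G) (g : G) (x y : M) :
    riemannianEDist 𝓘(ℝ, E) (g • x) (g • y) ≤ riemannianEDist 𝓘(ℝ, E) x y := by
  apply le_of_forall_gt (fun r hr ↦ ?_)
  obtain ⟨γ, γ0, γ1, hγ, hlen⟩ := exists_lt_of_riemannianEDist_lt hr
  have hsm : ContMDiffOn 𝓘(ℝ, ℝ) 𝓘(ℝ, E) 1 (fun t => g • γ t) (Icc 0 1) := by
    have h1 : ContMDiff 𝓘(ℝ, E) 𝓘(ℝ, E) 1 (fun x : M => g • x) :=
      (hact.smooth g).of_le (by exact_mod_cast le_top)
    exact h1.comp_contMDiffOn hγ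
  have hle := riemannianEDist_le_pathELength (I := 𝓘(ℝ, E)) (x := g • x) (y := g • y) hsm
    (by simp [γ0]) (by simp [γ1]) zero_le_one
  refine hle.trans_lt ?_
  refine lt_of_eq_of_lt ?_ hlen
  rw [pathELength_eq_lintegral_mfderivWithin_Icc, pathELength_eq_lintegral_mfderivWithin_Icc]
  refine setLIntegral_congr_fun measurableSet_Icc (fun t ht ↦ ?_)
  have hmd : MDifferentiableAt 𝓘(ℝ, E) 𝓘(ℝ, E) (fun x : M => g • x) (γ t) :=
    (hact.smooth g).mdifferentiableAt (by simp)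
  have hγd : MDifferentiableWithinAt 𝓘(ℝ, ℝ) 𝓘(ℝ, E) γ (Icc 0 1) t :=
    (hγ t ht).mdifferentiableWithinAt (by simp)
  have hu : UniqueMDiffWithinAt 𝓘(ℝ, ℝ) (Icc (0 : ℝ) 1) t := by
    rw [uniqueMDiffWithinAt_iff_uniqueDiffWithinAt]
    exact uniqueDiffOn_Icc zero_lt_one t ht
  have hcomp : mfderivWithin 𝓘(ℝ, ℝ) 𝓘(ℝ, E) (fun t => g • γ t) (Icc 0 1) t
      = (mfderiv 𝓘(ℝ, E) 𝓘(ℝ, E) (fun x : M => g • x) (γ t)).comp
        (mfderivWithin 𝓘(ℝ, ℝ) 𝓘(ℝ, E) γ (Icc 0 1) t) :=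
    mfderiv_comp_mfderivWithin t hmd hγd hu
  show ‖mfderivWithin 𝓘(ℝ, ℝ) 𝓘(ℝ, E) (fun t => g • γ t) (Icc 0 1) t 1‖ₑ
    = ‖mfderivWithin 𝓘(ℝ, ℝ) 𝓘(ℝ, E) γ (Icc 0 1) t 1‖ₑ
  rw [hcomp]
  exact enorm_map hact g (γ t) _

theorem pf_DMP {G : Type*} [Group G] [TopologicalSpace G] [MulAction G M]
    (hact : IsometricAction E M G) (g : G) (x y : M) : dist (g • x) (g • y) = dist x y := by
  have h1 : ∀ (g : G) (x y : M), edist (g • x) (g • y) ≤ edist x y := by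
    intro g x y
    rw [IsRiemannianManifold.out (I := 𝓘(ℝ, E)) (g • x) (g • y),
      IsRiemannianManifold.out (I := 𝓘(ℝ, E)) x y]
    exact edist_le hact g x y
  have h2 : edist (g • x) (g • y) = edist x y := by
    apply le_antisymm (h1 g x y)
    have := h1 g⁻¹ (g • x) (g • y)
    simpa using this
  rw [edist_dist, edist_dist] at h2
  exact (ENNReal.ofReal_eq_ofReal_iff dist_nonneg dist_nonneg).1 h2

end Pool.Agent.H7.FXD
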