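import Pool.Agent.H48.FXD.Defs

/-!
# MP_ea41d9_gt: image of a limit direction under a smooth map (row LDG)
-/

set_option autoImplicit false

open Bundle Manifold Filter Set MeasureTheory
open scoped ContDiff Topology ENNReal
open Pool.Agent.H48.FXD

namespace Pool.Agent.H7.FXD

variable {E : Type*} [NormedAddCommGroup E] [NormedSpace ℝ E] [FiniteDimensional ℝ E]
  {M : Type*} [MetricSpace M] [ChartedSpace E M] [IsManifold 𝓘(ℝ, E) ∞ M]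
  [RiemannianBundle (fun x : M => TangentSpace 𝓘(ℝ, E) x)]
  [IsContMDiffRiemannianBundle 𝓘(ℝ, E) ∞ E (fun x : M => TangentSpace 𝓘(ℝ, E) x)]
  [IsRiemannianManifold 𝓘(ℝ, E) M]

omit [FiniteDimensional ℝ E] [RiemannianBundle (fun x : M => TangentSpace 𝓘(ℝ, E) x)]
  [IsContMDiffRiemannianBundle 𝓘(ℝ, E) ∞ E (fun x : M => TangentSpace 𝓘(ℝ, E) x)]
  [IsRiemannianManifold 𝓘(ℝ, E) M] in
private lemma fderiv_chart {f : M → M} (hf : ContMDiff 𝓘(ℝ, E) 𝓘(ℝ, E) ∞ f) {z w : M}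
    (hz : f z = w) (hw : w = z) :
    HasFDerivAt (fun y => extChartAt 𝓘(ℝ, E) z (f ((extChartAt 𝓘(ℝ, E) z).symm y)))
      (show E →L[ℝ] E from mfderiv 𝓘(ℝ, E) 𝓘(ℝ, E) f z) (extChartAt 𝓘(ℝ, E) z z) := by
  have h : HasFDerivWithinAt (𝕜 := ℝ) (E := E) (F := E)
      (writtenInExtChartAt 𝓘(ℝ, E) 𝓘(ℝ, E) z f)
      (show E →L[ℝ] E from mfderiv 𝓘(ℝ, E) 𝓘(ℝ, E) f z) (Set.range 𝓘(ℝ, E))
      (extChartAt 𝓘(ℝ, E) z z) :=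
    (hf.mdifferentiableAt (x := z) (by simp)).hasMFDerivAt.2
  rw [ModelWithCorners.range_eq_univ, hasFDerivWithinAt_univ] at h
  have e : writtenInExtChartAt 𝓘(ℝ, E) 𝓘(ℝ, E) z f
      = (fun y => extChartAt 𝓘(ℝ, E) z (f ((extChartAt 𝓘(ℝ, E) z).symm y))) := by
    unfold writtenInExtChartAt
    rw [hz, hw]
    rfl
  rw [e] at h
  exact h

theorem pf_LDG {f : M → M} (hf : ContMDiff 𝓘(ℝ, E) 𝓘(ℝ, E) ∞ f) {z : M} (hz : f z = z)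
    {c : ℝ → M} (hc : Tendsto c (𝓝[>] 0) (𝓝 z)) {v : E} (hv : LimDir z c v) :
    LimDir (E := E) z (fun s => f (c s)) (mfderiv 𝓘(ℝ, E) 𝓘(ℝ, E) f z v) := by
  have hUF : UF ≤ 𝓝[>] (0 : ℝ) := Ultrafilter.of_le _
  have hD := fderiv_chart hf hz rfl
  unfold LimDir at hv ⊢
  have hcU : Tendsto c UF (𝓝 z) := hc.mono_left hUF
  have hφ : Tendsto (fun s => extChartAt 𝓘(ℝ, E) z (c s)) UF
      (𝓝 (extChartAt 𝓘(ℝ, E) z z)) :=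
    (continuousAt_extChartAt (I := 𝓘(ℝ, E)) z).tendsto.comp hcU
  have hsrc : ∀ᶠ s in UF, c s ∈ (extChartAt 𝓘(ℝ, E) z).source :=
    hcU (extChartAt_source_mem_nhds (I := 𝓘(ℝ, E)) z)
  have ho := hD.isLittleO.comp_tendsto hφ
  have hinv : (fun s : ℝ => s⁻¹) =O[UF] (fun s : ℝ => s⁻¹) := Asymptotics.isBigO_refl _ _
  have ho2 := hinv.smul_isLittleO ho
  have hbd : (fun s : ℝ => s⁻¹ • (extChartAt 𝓘(ℝ, E) z (c s) - extChartAt 𝓘(ℝ, E) z z))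
      =O[UF] (fun _ : ℝ => (1 : ℝ)) := hv.isBigO_one ℝ
  have ho3 : (fun s : ℝ => s⁻¹ •
      (extChartAt 𝓘(ℝ, E) z (f ((extChartAt 𝓘(ℝ, E) z).symm (extChartAt 𝓘(ℝ, E) z (c s))))
        - extChartAt 𝓘(ℝ, E) z (f ((extChartAt 𝓘(ℝ, E) z).symm (extChartAt 𝓘(ℝ, E) z z)))
        - (show E →L[ℝ] E from mfderiv 𝓘(ℝ, E) 𝓘(ℝ, E) f z)
          (extChartAt 𝓘(ℝ, E) z (c s) - extChartAt 𝓘(ℝ, E) z z)))
      =o[UF] (fun _ : ℝ => (1 : ℝ)) := ho2.trans_isBigO hbd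
  have ht := (Asymptotics.isLittleO_one_iff ℝ).1 ho3
  have hA : Tendsto (fun s : ℝ => (show E →L[ℝ] E from mfderiv 𝓘(ℝ, E) 𝓘(ℝ, E) f z)
      (s⁻¹ • (extChartAt 𝓘(ℝ, E) z (c s) - extChartAt 𝓘(ℝ, E) z z))) UF
      (𝓝 ((show E →L[ℝ] E from mfderiv 𝓘(ℝ, E) 𝓘(ℝ, E) f z) v)) :=
    ((show E →L[ℝ] E from mfderiv 𝓘(ℝ, E) 𝓘(ℝ, E) f z).continuous.tendsto v).comp hv
  have hsum := ht.add hA
  rw [zero_add] at hsum
  refine hsum.congr' ?_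
  filter_upwards [hsrc] with s hs
  rw [(extChartAt 𝓘(ℝ, E) z).left_inv hs, extChartAt_to_inv (I := 𝓘(ℝ, E)) z, hz,
    ContinuousLinearMap.map_smul, smul_sub, smul_sub, sub_add_cancel]

end Pool.Agent.H7.FXD
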